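import Pool.Agent.Q214.Cake.Main

/-!
# Truthful cake cutting for two agents: some agent gets value zero

The cake is the interval `[0,1]`. For two agents, every truthful mechanism that allocates the
whole cake has a profile of piecewise constant densities at which some agent receives a piece
of value zero.
-/

set_option autoImplicit false

namespace Pool.Agent.Results.MP_b3d40b_lc.NoTwoAgentMechanism

open MeasureTheory Set

/-- A value density on the cake `[0,1]`: a nonnegative function that is constant on each of
finitely many intervals that partition `[0,1]` and whose integral is positive. (It is extended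
by `0` to the real line; intervals are the sets `I` with `Set.OrdConnected I`.) -/
structure Density where
  /-- the density -/
  toFun : ℝ → ℝ
  nonneg : ∀ x, 0 ≤ toFun x
  outside : ∀ x, x ∉ Icc (0 : ℝ) 1 → toFun x = 0
  piecewiseConstant : ∃ P : Finset (Set ℝ), (∀ I ∈ P, I.OrdConnected) ∧
    (∀ I ∈ P, ∀ J ∈ P, I ≠ J → Disjoint I J) ∧ (⋃ I ∈ P, I) = Icc 0 1 ∧
    ∀ I ∈ P, ∀ x ∈ I, ∀ y ∈ I, toFun x = toFun y
  positive : 0 < ∫ x in Icc (0 : ℝ) 1, toFun x

/-- The value of the set `X` for an agent with density `f`. -/
noncomputable def Density.value (f : Density) (X : Set ℝ) : ℝ := ∫ x in X, f.toFun x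

/-- A (deterministic, direct revelation) mechanism for `n` agents: for all reported densities it
gives an allocation of the whole cake into pairwise disjoint finite unions of intervals. -/
structure Mechanism (n : ℕ) where
  /-- the piece of every agent, as a function of the reports -/
  piece : (Fin n → Density) → Fin n → Set ℝ
  union_of_intervals : ∀ f i, ∃ P : Finset (Set ℝ), (∀ I ∈ P, I.OrdConnected) ∧
    piece f i = ⋃ I ∈ P, I
  disjoint : ∀ f i j, i ≠ j → Disjoint (piece f i) (piece f j)
  whole : ∀ f, ⋃ i, piece f i = Icc 0 1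

/-- A mechanism is truthful if for all agents `i`, all profiles `f` (true density and report
`f i` of the agent `i`, reports `f j` of the other agents) and all other reports `g` of the
agent `i`, the piece the agent `i` gets when reporting `f i` has at least the value of the piece
it gets when reporting `g`; the values are computed from the true density `f i`. -/
def Mechanism.Truthful {n : ℕ} (M : Mechanism n) : Prop :=
  ∀ (f : Fin n → Density) (i : Fin n) (g : Density),
    (f i).value (M.piece (Function.update f i g) i) ≤ (f i).value (M.piece f i)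

theorem result (M : Mechanism 2) (hM : M.Truthful) :
    ∃ (f : Fin 2 → Density) (i : Fin 2), (f i).value (M.piece f i) = 0 := by
  by_contra hcon
  push Not at hcon
  have hpos : ∀ (f : Fin 2 → Density) (i : Fin 2), 0 < (f i).value (M.piece f i) := fun f i =>
    lt_of_le_of_ne (integral_nonneg fun x => (f i).nonneg x) (hcon f i).symm
  classical
  let D : ∀ f : ℝ → ℝ, Q214.Cake.Good f → Density := fun f h => ⟨f, h.1, h.2, h.3, h.4⟩
  let X : (ℝ → ℝ) → (ℝ → ℝ) → Set ℝ := fun f g =>
    if h : Q214.Cake.Good f ∧ Q214.Cake.Good g then M.piece ![D f h.1, D g h.2] 0 else ∅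
  have hX : ∀ f g (hf : Q214.Cake.Good f) (hg : Q214.Cake.Good g),
      X f g = M.piece ![D f hf, D g hg] 0 := fun f g hf hg => dif_pos ⟨hf, hg⟩
  have hsub : ∀ (F : Fin 2 → Density) i, M.piece F i ⊆ Icc 0 1 := fun F i => by
    rw [← M.whole F]
    exact subset_iUnion (M.piece F) i
  have hone : ∀ (F : Fin 2 → Density), M.piece F 1 = Icc 0 1 \ M.piece F 0 := by
    intro F
    have h1 := M.disjoint F 0 1 (by decide)
    have h2 := M.whole F
    ext x
    constructor
    · intro hx
      exact ⟨hsub F 1 hx, fun h0 => Set.disjoint_left.1 h1 h0 hx⟩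
    · rintro ⟨hx, hx0⟩
      rw [← h2] at hx
      obtain ⟨i, hi⟩ := mem_iUnion.1 hx
      fin_cases i
      · exact absurd hi hx0
      · exact hi
  have hpc : ∀ (F : Fin 2 → Density) i, Q214.Cake.PC fun x => x ∈ M.piece F i := by
    intro F i
    obtain ⟨P, hP, he⟩ := M.union_of_intervals F i
    rw [he]
    exact Q214.Cake.PC.union P hP
  have hmeas : ∀ (F : Fin 2 → Density) i, MeasurableSet (M.piece F i) := fun F i =>
    (hpc F i).measurableSet (hsub F i)
  have hval : ∀ (F : Fin 2 → Density) (g : Density), g.value (M.piece F 1) =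
      Q214.Cake.val g.toFun (Icc 0 1) - g.value (M.piece F 0) := by
    intro F g
    rw [hone]
    exact Q214.Cake.val_compl g.piecewiseConstant (hsub F 0) (hmeas F 0)
  refine Q214.Cake.no_mech (X := X) ⟨?_, ?_, ?_, ?_, ?_, ?_⟩
  · intro f g hf hg
    rw [hX f g hf hg]
    exact hsub _ _
  · intro f g hf hg
    rw [hX f g hf hg]
    exact hpc _ _
  · intro f f' g hf hf' hg
    rw [hX f g hf hg, hX f' g hf' hg]
    have h1 := hM ![D f hf, D g hg] 0 (D f' hf')
    have h2 : Function.update ![D f hf, D g hg] 0 (D f' hf') = ![D f' hf', D g hg] := by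
      ext i
      fin_cases i <;> simp
    rw [h2] at h1
    exact h1
  · intro f g g' hf hg hg'
    rw [hX f g hf hg, hX f g' hf hg']
    have h1 := hM ![D f hf, D g hg] 1 (D g' hg')
    have h2 : Function.update ![D f hf, D g hg] 1 (D g' hg') = ![D f hf, D g' hg'] := by
      ext i
      fin_cases i <;> simp
    rw [h2, hval, hval] at h1
    have h3 : (D g hg).value (M.piece ![D f hf, D g hg] 0) ≤
        (D g hg).value (M.piece ![D f hf, D g' hg'] 0) := by
      have h4 : (![D f hf, D g hg] : Fin 2 → Density) 1 = D g hg := rfl
      rw [h4] at h1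
      linarith
    exact h3
  · intro f g hf hg
    rw [hX f g hf hg]
    exact hpos ![D f hf, D g hg] 0
  · intro f g hf hg
    rw [hX f g hf hg]
    have h1 := hpos ![D f hf, D g hg] 1
    rw [hval] at h1
    have h4 : (![D f hf, D g hg] : Fin 2 → Density) 1 = D g hg := rfl
    rw [h4] at h1
    have h5 : Q214.Cake.val (D g hg).toFun (Icc 0 1) = Q214.Cake.val g (Icc 0 1) := rfl
    have h6 : (D g hg).value (M.piece ![D f hf, D g hg] 0) =
        Q214.Cake.val g (M.piece ![D f hf, D g hg] 0) := rfl
    rw [h5, h6] at h1
    linarith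

end Pool.Agent.Results.MP_b3d40b_lc.NoTwoAgentMechanism
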